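import Pool.Agent.GK.Bas
import Pool.Agent.TS.C.Cpx
import Pool.Agent.TS.L.Com
import Pool.Agent.TS.K.Odd
import Pool.Agent.TS.V.Sub

/-!
# GK/H-Cc: complex conjugations in open subgroups; killers

`mark_cx` (THF/L/Cx) computes the mark of the field of `L` at every complex conjugation: it is the number of real places.  So if `L`
contains some complex conjugation, it contains a conjugate of the given one.
`kil2`: as `kil` (GJ/H/Kil), with the information on the normalizer.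
-/

namespace Pool.Agent.GK

open Pool.Agent.GJ MulAction Pool.Agent.H73.DU Pool.Agent.H73.AL Pool.Agent.LD Pool.Agent.TS

open NumberField

theorem isCc_of {i : AlgebraicClosure ℚ →+* ℂ} {c : GQ} (hc : Pool.Agent.THF.IsCx i c) : IsCc c :=
  ⟨i, hc⟩

/-- a point of `GQ ⧸ L` fixed by `c` -/
private theorem Cc_pos {L : Subgroup GQ} (hL : IsOpen (L : Set GQ)) {c' : GQ} (h : c' ∈ L) :
    pc L (Subgroup.zpowers c') ≠ 0 := by
  have := fin_open hL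
  unfold pc pch
  have h1 : ((1 : GQ) : GQ ⧸ L) ∈ fx (GQ ⧸ L) (Subgroup.zpowers c') := by
    rw [fx_zpowers]
    change (((c' * 1 : GQ)) : GQ ⧸ L) = ((1 : GQ) : GQ ⧸ L)
    rw [eq_comm, QuotientGroup.eq, inv_one, one_mul, mul_one]
    exact h
  have h2 : Nonempty (fx (GQ ⧸ L) (Subgroup.zpowers c')) := ⟨⟨_, h1⟩⟩
  have h3 := Nat.card_pos (α := fx (GQ ⧸ L) (Subgroup.zpowers c'))
  exact_mod_cast h3.ne'

private theorem Cc_ex {L : Subgroup GQ} {c : GQ} (h : pc L (Subgroup.zpowers c) ≠ 0) :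
    ∃ g : GQ, g⁻¹ * c * g ∈ L := by
  by_contra hcon
  push Not at hcon
  apply h
  have h2 : IsEmpty (fx (GQ ⧸ L) (Subgroup.zpowers c)) := by
    refine ⟨fun x => ?_⟩
    obtain ⟨x, hx⟩ := x
    rw [fx_zpowers] at hx
    induction x using QuotientGroup.induction_on with
    | H g =>
      change (((c * g : GQ)) : GQ ⧸ L) = ((g : GQ) : GQ ⧸ L) at hx
      rw [eq_comm, QuotientGroup.eq, ← mul_assoc] at hx
      exact hcon g hx
  unfold pc pch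
  have h3 : Nat.card (fx (GQ ⧸ L) (Subgroup.zpowers c)) = 0 := Nat.card_of_isEmpty
  exact_mod_cast h3

theorem cc_conj {i : AlgebraicClosure ℚ →+* ℂ} {c : GQ} (hc : Pool.Agent.THF.IsCx i c)
    {L : Subgroup GQ} (hL : IsOpen (L : Set GQ)) (h : ¬ TC L) : ∃ g : GQ, g⁻¹ * c * g ∈ L := by
  unfold TC at h
  push Not at h
  obtain ⟨c', ⟨ι, hι⟩, hcL⟩ := h
  obtain ⟨F, ψ, -, hm, -⟩ := exists_nf L hL
  refine Cc_ex ?_
  rw [← hm, Pool.Agent.THF.mark_cx hc F.F, ← Pool.Agent.THF.mark_cx (i := ι) (c := c') hι F.F, hm]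
  exact Cc_pos hL hcL

/-- the field of a totally complex subgroup -/
theorem tc_real {i : AlgebraicClosure ℚ →+* ℂ} {c : GQ} (hc : Pool.Agent.THF.IsCx i c)
    {L : Subgroup GQ} (h : TC L) {F : NF} (hm : mark F.F = pc L) :
    InfinitePlace.nrRealPlaces F.F = 0 := by
  by_contra h0
  have h1 := Pool.Agent.THF.mark_cx hc F.F
  rw [hm] at h1
  obtain ⟨g, hg⟩ := Cc_ex (L := L) (c := c) (by rw [h1]; exact_mod_cast h0)
  refine h _ ?_ hg
  have h2 := isCc_conj (isCc_of hc) g⁻¹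
  rwa [inv_inv] at h2

theorem kil2 {V T : Finset ℕ} (NM N : Subgroup GQ) [NM.Normal] [N.Normal]
    (hN : IsOpen (N : Set GQ)) (hsq : ∀ e ∈ NM, e * e ∈ N)
    (hu : ∀ (p : ℕ) [Fact p.Prime], p ∈ V → p ∉ T → ∃ u ∈ decomp ℚ_[p] (emb p), u ∈ NM ∧
        ∀ σ : GQ, σ * u * σ⁻¹ * u⁻¹ ∈ N → ∃ d ∈ decomp ℚ_[p] (emb p), d⁻¹ * σ ∈ NM) (t : GQ) :
    ∃ (a q : ℕ) (H : Subgroup GQ), ¬ 2 ∣ q ∧ (t ^ 2 ^ a) ^ q ∈ N ∧ N ≤ H ∧
      ¬ (2 : ℤ) ∣ pc H (Subgroup.zpowers t) ∧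
      (∀ x ∈ H, x * t ^ 2 ^ a * x⁻¹ ∈ Subgroup.zpowers (t ^ 2 ^ a) ⊔ N) ∧
      ((∀ P : Pl, Pin V T P → ¬ P.D ⊓ NM ≤ H) ∨ ∃ P : Pl, Pin V T P ∧
        ∃ d ∈ P.D, d⁻¹ * t ^ 2 ^ a ∈ NM) := by
  have : N.FiniteIndex := (nice_rat T).finiteIndex hN
  obtain ⟨a, q, H, hq, ht, hNH, hodd, hn⟩ := exists_odd N t
  refine ⟨a, q, H, hq, ht, hNH, hodd, hn, ?_⟩
  by_cases h : ∀ P : Pl, Pin V T P → ¬ P.D ⊓ NM ≤ H
  · exact Or.inl h
  · right
    push Not at h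
    obtain ⟨P, hP, hle⟩ := h
    obtain ⟨u, hud, huN, hu'⟩ := hu P.p hP.1 hP.2
    have h1 : P.g * u * P.g⁻¹ ∈ H := by
      refine hle (Subgroup.mem_inf.2 ⟨?_, ‹NM.Normal›.conj_mem u huN P.g⟩)
      have h2 := mem_cj (a := P.g⁻¹) hud
      rw [inv_inv] at h2
      exact h2
    obtain ⟨d, hd, hd'⟩ := hu' _ (com NM N hsq (g := P.g) huN hq ht (hn _ h1))
    refine ⟨P, hP, P.g * d * P.g⁻¹, ?_, ?_⟩
    · have h2 := mem_cj (a := P.g⁻¹) hd
      rw [inv_inv] at h2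
      exact h2
    · have h2 := ‹NM.Normal›.conj_mem _ hd' P.g
      have h3 : P.g * (d⁻¹ * (P.g⁻¹ * t ^ 2 ^ a * P.g)) * P.g⁻¹ =
          (P.g * d * P.g⁻¹)⁻¹ * t ^ 2 ^ a := by
        group
      rw [h3] at h2
      exact h2

end Pool.Agent.GK
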