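import Pool.Agent.GJ.H.LemK
import Pool.Agent.GJ.H.Deep
import Pool.Agent.GJ.H.Loc
import Pool.Agent.GK.H.Cc
import Pool.Agent.TF2.L.Cent2
import Pool.Agent.TS.L.Ext
import Pool.Agent.GK.D.Mem

/-!
# GK/H-Step: the step of ALG for totally complex subgroups

As GJ/H/Step; the killers contain no complex conjugation.  If the killer of `t` contains one, `h = pc H - pc J` is even at `t`
(`cx_par`, TS/C/Cpx): `N1` is chosen with `cent2` (TF2/L/Cent2).
-/

namespace Pool.Agent.GK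

open Pool.Agent.GJ MulAction Pool.Agent.H73.DU Pool.Agent.H73.AL Pool.Agent.LD Pool.Agent.TS

open NumberField

private theorem st_le_cj {N H : Subgroup GQ} (hn : N.Normal) (h : N ≤ H) (b : GQ) :
    N ≤ cj b H := by
  intro g hg
  refine mem_cj_iff.2 ⟨b * g * b⁻¹, h (hn.conj_mem g hg b), ?_⟩
  group

/-- marks depend only on the action modulo a normal subgroup -/
private theorem st_congr {NM H : Subgroup GQ} (hn : NM.Normal) (h : NM ≤ H) {t d : GQ}
    (ht : d⁻¹ * t ∈ NM) : pc H (Subgroup.zpowers t) = pc H (Subgroup.zpowers d) := by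
  have h1 : ∀ x : GQ ⧸ H, t • x = d • x := by
    intro x
    induction x using QuotientGroup.induction_on with
    | H a =>
      change (((t * a : GQ) : GQ ⧸ H) = ((d * a : GQ)))
      rw [eq_comm, QuotientGroup.eq]
      have h2 : (d * a)⁻¹ * (t * a) = a⁻¹ * (d⁻¹ * t) * a⁻¹⁻¹ := by group
      rw [h2]
      exact h (hn.conj_mem _ ht a⁻¹)
  have h3 : fx (GQ ⧸ H) (Subgroup.zpowers t) = fx (GQ ⧸ H) (Subgroup.zpowers d) := by
    ext x
    rw [fx_zpowers, fx_zpowers, h1 x]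
  unfold pc pch
  rw [h3]

private theorem st_core (J : Subgroup GQ) (hJ : J.index ≠ 0) :
    J.normalCore.index ≤ J.index.factorial := by
  have hfin : J.FiniteIndex := ⟨hJ⟩
  have : Finite (GQ ⧸ J) := inferInstance
  rw [Subgroup.normalCore_eq_ker, Subgroup.index_ker]
  refine (Nat.card_le_card_of_injective _ Subtype.val_injective).trans ?_
  rw [Nat.card_perm]
  exact le_rfl

private theorem st_mv {L NM : Subgroup GQ} (hn : NM.Normal) {P : Pl} {b : GQ}
    (h : P.D ⊓ NM ≤ cj b L) : (P.mv b).D ⊓ NM ≤ L := by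
  rintro x ⟨hx, hx'⟩
  have h1 : b⁻¹ * x * b ∈ P.D := by
    unfold Pl.D Pl.mv at hx
    obtain ⟨u, hu, hux⟩ := mem_cj_iff.1 hx
    unfold Pl.D
    refine mem_cj_iff.2 ⟨u, hu, ?_⟩
    rw [← hux]
    simp only [inv_inv, mul_inv_rev]
    group
  have h2 : b⁻¹ * x * b ∈ NM := by
    have := hn.conj_mem x hx' b⁻¹
    rwa [inv_inv] at this
  obtain ⟨u, hu, hux⟩ := mem_cj_iff.1 (h ⟨h1, h2⟩)
  have h3 : u = x := by
    have h4 : u = b * (b⁻¹ * u * b) * b⁻¹ := by group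
    rw [h4, hux]
    group
  rw [← h3]
  exact hu

private theorem st_tr (F : NF) (hF : NumberField.InfinitePlace.nrComplexPlaces F.F = 0)
    (φ : F.F →+* AlgebraicClosure ℚ) : TR (stb φ) := by
  intro ι c hc
  have h1 : NumberField.ComplexEmbedding.IsReal (ι.comp φ) := by
    rw [← NumberField.InfinitePlace.isReal_mk_iff]
    exact (NumberField.nrComplexPlaces_eq_zero_iff.1 hF).isReal _
  rw [NumberField.ComplexEmbedding.isReal_iff] at h1
  refine MulAction.mem_stabilizer_iff.2 ?_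
  ext x
  rw [smul_emb]
  apply ι.injective
  rw [hc (φ x)]
  exact RingHom.congr_fun h1 x

theorem step {V T : Finset ℕ} (hTp : ∀ p ∈ T, p.Prime) (h2 : 2 ∈ T) {i B : ℕ} {H : Subgroup GQ}
    (hH : Ci V T i H) (hTC : TC H)
    (hbad : ∀ L H' : Subgroup GQ, Ci V T i L → IsOpen (H' : Set GQ) → L ≤ H' →
      L.relIndex H' = 2 → H.index ∣ L.index → L.index ≤ bK H.index →
      pc L ∈ EY V T i H.index B)
    (hB : bK H.index ≤ B) : pc H ∈ EY V T i H.index B := by
  classical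
  obtain ⟨ι, c, hc⟩ := Pool.Agent.THF.exists_cx
  obtain ⟨K, ψ, hψ, hKm, hKi⟩ := exists_nf H hH.op
  obtain ⟨F, hF0, hFn, hFm⟩ := exists_TR (V ∪ T) K
  obtain ⟨φ⟩ : Nonempty (F.F →+* AlgebraicClosure ℚ) := inferInstance
  have hK0 : InfinitePlace.nrRealPlaces K.F = 0 := tc_real hc hTC hKm
  have hJpc : mark F.F = pc (stb φ) := mark_eq_pc F.F φ
  have hFi : Module.finrank ℚ F.F = H.index := hFn.trans hKi
  obtain ⟨N0, hN0n, hN0o, hN0i, hN0t⟩ := exists_NM K F H.index hKi hFi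
  have hfin0 : N0.FiniteIndex := (nice_rat T).finiteIndex hN0o
  have hN0J : N0 ≤ stb φ := fun g hg => MulAction.mem_stabilizer_iff.2 ((hN0t g hg).2 φ)
  have hN0H : N0 ≤ H := by
    rw [← hψ]
    exact fun g hg => MulAction.mem_stabilizer_iff.2 ((hN0t g hg).1 ψ)
  obtain ⟨J, hJdef⟩ : ∃ J : Subgroup GQ, J = stb φ := ⟨_, rfl⟩
  have hJo : IsOpen (J : Set GQ) := by rw [hJdef]; exact stab_open F.F φ
  have hJTR : TR J := by rw [hJdef]; exact st_tr F hF0 φ
  rw [← hJdef] at hJpc hN0J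
  have hJi : J.index = H.index := by
    have h3 := congrFun hJpc ⊥
    rw [pc_bot, mark, pch_bot] at h3
    have h4 := NumberField.Embeddings.card F.F (AlgebraicClosure ℚ)
    rw [← Nat.card_eq_fintype_card] at h4
    rw [h4] at h3
    have h5 : (Module.finrank ℚ F.F : ℤ) = (J.index : ℤ) := h3
    rw [← hFi]
    exact_mod_cast h5.symm
  have hJm : ∀ P : Pl, P.p ∈ V ∪ T → ∀ U : Subgroup GQ, U ≤ P.D → pc H U = pc J U := by
    intro P hP U hU
    rw [← hKm, ← hJpc]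
    refine hFm P.p hP U ⟨P.g, ?_⟩
    intro x hx
    obtain ⟨u, hu, rfl⟩ := mem_cj_iff.1 hx
    obtain ⟨d, hd, h2⟩ := mem_cj_iff.1 (hU hu)
    have h3 : P.g⁻¹ * u * P.g = d := by
      rw [← h2]
      group
    rw [h3]
    exact hd
  have hJ : Ci V T i J := ci_of_marks hH hJo fun P hP U hU =>
    hJm P (Finset.mem_union_left _ hP.1) U hU
  obtain ⟨NM, hNMo, hNMn, h10, hN1i, hcent⟩ := Pool.Agent.TF2.cent2 hc N0 hN0o hN0n hfin0
  have hNMH : NM ≤ H := h10.trans hN0H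
  have hNMJ : NM ≤ J := h10.trans hN0J
  obtain ⟨N, hNn, hNo, hNle, hNsq, hNi, hNu⟩ := exists_N (V := V) hTp h2 NM hNMo
  have hNf : N.FiniteIndex := (nice_rat T).finiteIndex hNo
  have hNB : N.index ≤ bK H.index := by
    unfold bK
    have h1 : NM.index ≤ bM H.index * 2 ^ bM H.index ^ 2 :=
      hN1i.trans (Nat.mul_le_mul hN0i (Nat.pow_le_pow_right (by norm_num)
        (Nat.pow_le_pow_left hN0i 2)))
    exact hNi.trans (Nat.mul_le_mul h1 (Nat.pow_le_pow_right (by norm_num) h1))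
  have hidx : ∀ L : Subgroup GQ, N ≤ L → L.index ≤ bK H.index := fun L hL =>
    (Nat.le_of_dvd (Nat.pos_of_ne_zero Subgroup.FiniteIndex.index_ne_zero)
      (Subgroup.index_dvd_of_le hL)).trans hNB
  have hop : ∀ L : Subgroup GQ, N ≤ L → IsOpen (L : Set GQ) := fun L hL =>
    Subgroup.isOpen_mono hL hNo
  have hfin : ∀ L : Subgroup GQ, N ≤ L → Finite (GQ ⧸ L) := fun L hL =>
    (nice_rat T).fin (hop L hL)
  -- the classes
  set C : Set (Subgroup GQ) := {L | N ≤ L ∧ H.index ∣ L.index ∧ Ci V T i L} with hCdef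
  set C' : Set (Subgroup GQ) := {L | L ∈ C ∧ Ci V T (i + 1) L ∧ TC L} with hC'def
  have hinf : ∀ L ∈ C, ∀ K : Subgroup GQ, N ≤ K → ∀ b : GQ, L ⊓ cj b K ∈ C := by
    intro L hL K hK b
    have h3 : N ≤ L ⊓ cj b K := le_inf hL.1 (st_le_cj hNn hK b)
    exact ⟨h3, hL.2.1.trans (Subgroup.index_dvd_of_le inf_le_left),
      hL.2.2.mono inf_le_left (hop _ h3)⟩
  have hC : Cls C := ⟨fun L hL => hfin L hL.1, fun L hL K hK b => hinf L hL K hK.1 b⟩
  have hHC : H ∈ C := ⟨hNle.trans hNMH, dvd_rfl, hH⟩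
  have hJC : J ∈ C := ⟨hNle.trans hNMJ, by rw [hJi], hJ⟩
  have hh : pc H - pc J ∈ RC C := AddSubgroup.sub_mem _
    (AddSubgroup.subset_closure ⟨H, hHC, rfl⟩) (AddSubgroup.subset_closure ⟨J, hJC, rfl⟩)
  have hC' : ∀ L ∈ C', ∀ K : Subgroup GQ, N ≤ K → ∀ b : GQ, L ⊓ cj b K ∈ C' := by
    intro L hL K hK b
    have h3 := hinf L hL.1 K hK b
    exact ⟨h3, hL.2.1.mono inf_le_left (hop _ h3.1), hL.2.2.mono inf_le_left⟩
  -- killing
  have hkk : ∀ K ∈ C, NM ≤ K → ∀ L : Subgroup GQ, N ≤ L →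
      ((∀ P : Pl, Pin V T P → ¬ P.D ⊓ NM ≤ L) ∧ TC L) → pc K * pc L ∈ RC C' := by
    intro K hK hNK L hL hKp
    have := hfin K hK.1
    have := hfin L hL
    refine pc_mul K L _ fun b => AddSubgroup.subset_closure
      ⟨K ⊓ cj b L, ⟨hinf K hK L hL b, ?_, (hKp.2.cj b).mono inf_le_right⟩, rfl⟩
    refine ⟨hop _ (hinf K hK L hL b).1, fun P hP => ?_⟩
    exact deep NM N hNsq hNK (st_le_cj hNn hL b) (hK.2.2.2 P hP) fun hcon =>
      hKp.1 (P.mv b) hP (st_mv hNMn hcon)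
  have hk : ∀ L : Subgroup GQ, N ≤ L →
      ((∀ P : Pl, Pin V T P → ¬ P.D ⊓ NM ≤ L) ∧ TC L) → (pc H - pc J) * pc L ∈ RC C' := by
    intro L hL hKp
    rw [sub_mul]
    exact AddSubgroup.sub_mem _ (hkk H hHC hNMH L hL hKp) (hkk J hJC hNMJ L hL hKp)
  have hU : ∀ U ∈ famT T, (2 : ℤ) ∣ (pc H - pc J) U ∨ ∃ L : Subgroup GQ, N ≤ L ∧
      ((∀ P : Pl, Pin V T P → ¬ P.D ⊓ NM ≤ L) ∧ TC L) ∧ ¬ (2 : ℤ) ∣ pc L U := by
    rintro U (⟨t, rfl⟩ | ⟨l, hl, a, hlT, hU⟩)
    · obtain ⟨a, q, L, hq, htq, hNL, hodd, hnorm, hor⟩ := kil2 NM N hNo hNsq hNu t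
      by_cases hcL : TC L
      · rcases hor with h3 | ⟨P, hP, d, hd, hdt⟩
        · exact Or.inr ⟨L, hNL, ⟨h3, hcL⟩, hodd⟩
        · left
          have := hfin H hHC.1
          have := hfin J hJC.1
          have e1 := pc_mod H t a
          have e2 := pc_mod J t a
          rw [st_congr hNMn hNMH hdt] at e1
          rw [st_congr hNMn hNMJ hdt] at e2
          have e3 : pc H (Subgroup.zpowers d) = pc J (Subgroup.zpowers d) :=
            hJm P (Finset.mem_union_left _ hP.1) _ (by rw [Subgroup.zpowers_le]; exact hd)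
          rw [Pi.sub_apply]
          have e4 : pc H (Subgroup.zpowers t) - pc J (Subgroup.zpowers t) =
              (pc H (Subgroup.zpowers t) - pc H (Subgroup.zpowers d)) -
              (pc J (Subgroup.zpowers t) - pc J (Subgroup.zpowers d)) := by
            rw [e3]
            ring
          rw [e4]
          exact dvd_sub e1 e2
      · left
        obtain ⟨g, hg⟩ := cc_conj hc (hop L hNL) hcL
        have h3 := cx_par hc K F hK0 hF0 hFn N0 NM N hN0t h10 hNle hcent t a q hq htq g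
          (hnorm _ hg)
        rw [hKm, hJpc] at h3
        exact h3
    · left
      have h3 : U ≤ (Pl.mk l a).D := by
        intro x hx
        unfold Pl.D
        refine mem_cj_iff.2 ⟨a⁻¹ * x * a, hU (mem_cj hx), ?_⟩
        group
      rw [Pi.sub_apply, hJm (Pl.mk l a) (Finset.mem_union_right _ hlT) U h3, sub_self]
      exact dvd_zero _
  have hmem := lemK2 N hC (fun L hL => hL.1) hC' (famT T) hh
    (fun L => (∀ P : Pl, Pin V T P → ¬ P.D ⊓ NM ≤ L) ∧ TC L) hk hU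
  -- the span
  have hle : MC C (famT T) ⊔ RC C' ≤ EY V T i H.index B := by
    refine sup_le ?_ ?_
    · unfold MC
      rw [AddSubgroup.closure_le]
      rintro f (⟨L, hL, rfl⟩ | ⟨L, hL, ⟨Y, hY, hY2⟩, rfl⟩ | hf)
      · exact mem_two hL.2.2 hL.2.1 ((hidx L hL.1).trans hB)
      · exact hbad L Y hL.2.2 (hop Y (hL.1.trans hY)) hY hY2 hL.2.1 (hidx L hL.1)
      · exact mem_zero hf
    · unfold RC
      rw [AddSubgroup.closure_le]
      rintro f ⟨L, hL, rfl⟩
      exact mem_Ey ⟨hL.1.2.2, Or.inl hL.2⟩ hL.1.2.1 ((hidx L hL.1.1).trans hB)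
  have hpJ : pc J ∈ EY V T i H.index B :=
    mem_Ey ⟨hJ, Or.inr (Or.inl hJTR)⟩ hJC.2.1 ((hidx J hJC.1).trans hB)
  have hfinal : pc H = (pc H - pc J) + pc J := by abel
  rw [hfinal]
  exact AddSubgroup.add_mem _ (hle hmem) hpJ

end Pool.Agent.GK
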