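import Pool.Agent.GJ.H.Alg
import Pool.Agent.GK.G.Bad
import Pool.Agent.GK.H.Step

/-!
# GK/H-Alg: theorem ALG for totally complex subgroups

`GJ.alg` of level `i` gives `bad` of level `i + 1` for the span `EY`, and `step` (GK/H/Step) the theorem.
-/

namespace Pool.Agent.GK

open Pool.Agent.GJ MulAction Pool.Agent.H73.DU Pool.Agent.H73.AL Pool.Agent.LD Pool.Agent.TS

theorem algY (i : ℕ) : ∃ b : ℕ → ℕ, ∀ (T : Finset ℕ) (_ : ∀ p ∈ T, p.Prime)
    (_ : 2 ∈ T) (V : Finset ℕ) (_ : ∃ P : Pl, Pin V T P) (H : Subgroup GQ), Ci V T i H → TC H →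
      pc H ∈ EY V T i H.index (b H.index) := by
  cases i with
  | zero =>
    refine ⟨fun k => bK k, ?_⟩
    intro T hTp h2 V _ H hH hTC
    refine step hTp h2 hH hTC ?_ le_rfl
    intro L H' hL hH' hLH hi hn hB
    exact quad_mem (Ci.zero hH') hL.1 hLH hi hn hB
  | succ i =>
    obtain ⟨c, hc⟩ := GJ.alg i
    obtain ⟨b, hb⟩ := bad i c
    refine ⟨fun k => bK k + ∑ m ∈ Finset.range (bK k + 1), b m, ?_⟩
    intro T hTp h2 V hV H hH hTC
    refine step hTp h2 hH hTC ?_ (Nat.le_add_right _ _)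
    intro L H' hL hH' hLH hi hn hB
    refine hb hTp h2 hV (fun K hK => hc T hTp h2 V hV K hK) hL hH' hLH hi _ _ hn ?_
    refine le_trans ?_ (Nat.le_add_left _ _)
    exact Finset.single_le_sum (f := b) (fun _ _ => Nat.zero_le _)
      (Finset.mem_range.2 (Nat.lt_succ_of_le hB))

end Pool.Agent.GK
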